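import Pool.Agent.Run7.h638.WR.Iface

/-! # Piece RF of the project WR (MP_5885b3_lc): a tiling of a torus gives a finite representation -/

set_option autoImplicit false

namespace Pool.Agent.Run7.h784.WR

open Pool.Agent.Run7.h638.WR

/-- the base of the representation -/
structure XX (n m : ℕ) where
  i : Fin 6
  y : Yt n m

/-- the discrete order -/
instance instXX (n m : ℕ) : PartialOrder (XX n m) where
  le a b := a = b
  le_refl _ := rfl
  le_trans _ _ _ h1 h2 := h1.trans h2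
  le_antisymm _ _ h _ := h

theorem le_eq {n m : ℕ} {a b : XX n m} (h : a ≤ b) : a = b := h

theorem finite_XX (n m : ℕ) [NeZero n] [NeZero m] : Finite (XX n m) := by
  have : Finite (Yt n m) := inferInstance
  refine Finite.of_injective (fun x : XX n m => (x.i, x.y)) ?_
  rintro ⟨i, y⟩ ⟨i', y'⟩ h
  simp only [Prod.mk.injEq] at h
  rw [h.1, h.2]

/-- the relation of a set of atoms -/
def hh {n m : ℕ} (T : ZMod n → ZMod m → Tile) (Q : List Win) (S : Set (At Q)) (x y : XX n m) :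
    Prop :=
  ∃ c ∈ S, c.1 = ((x.i.1, y.i.1), kap T x.i.1 y.i.1 x.y y.y)

theorem t_RF : RF := by
  intro hRR hRK n m hn hm T Q hQ
  have hrr := hRR n m hn hm T Q hQ
  have hrk := hRK n m hn hm T Q hQ
  -- the atom of a pair
  have hat : ∀ x y : XX n m, ∃ c : At Q, c.1 = ((x.i.1, y.i.1), kap T x.i.1 y.i.1 x.y y.y) := by
    intro x y
    exact ⟨⟨((x.i.1, y.i.1), kap T x.i.1 y.i.1 x.y y.y), x.i.2, y.i.2,
      (hrr _ _ x.i.2 y.i.2).1 x.y y.y⟩, rfl⟩
  choose at' hat' using hat
  have hmem : ∀ (S : Set (At Q)) (x y : XX n m), hh T Q S x y ↔ at' x y ∈ S := by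
    intro S x y
    constructor
    · rintro ⟨c, hc, h⟩
      have : c = at' x y := Subtype.ext (h.trans (hat' x y).symm)
      rwa [← this]
    · intro h
      exact ⟨at' x y, h, hat' x y⟩
  have hsurj : ∀ c : At Q, ∃ x y : XX n m, c = at' x y := by
    rintro ⟨⟨⟨i, j⟩, u⟩, hi, hj, hu⟩
    obtain ⟨y', hy'⟩ := (hrr i j hi hj).2.1 u hu (0 : Yt n m)
    refine ⟨⟨⟨i, hi⟩, 0⟩, ⟨⟨j, hj⟩, y'⟩, Subtype.ext ?_⟩
    rw [hat']
    show ((i, j), u) = ((i, j), kap T i j 0 y')
    rw [hy']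
  refine ⟨XX n m, instXX n m, hh T Q, finite_XX n m, ?_⟩
  constructor
  · intro S S' h
    ext c
    obtain ⟨x, y, rfl⟩ := hsurj c
    rw [← hmem, ← hmem, h]
  · intro S x' x y y' h1 h2 h3
    rw [le_eq h1, ← le_eq h3]
    exact h2
  · intro S S'
    funext x z
    apply propext
    rw [hmem]
    constructor
    · rintro ⟨a, ha, b, hb, hab⟩
      obtain ⟨⟨⟨i, j⟩, u⟩, hi, hj, hu⟩ := a
      obtain ⟨⟨⟨j', k⟩, v⟩, hj', hk, hv⟩ := b
      obtain ⟨h1, h2, h3⟩ := hab
      rw [hat'] at h2 h3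
      simp only at h1 h2 h3 hi hj hu hj' hk hv
      subst h1
      obtain ⟨hxi, hzk⟩ := Prod.mk.inj h2
      subst hxi
      subst hzk
      have hex : ∃ y', kap T x.i.1 j x.y y' = u ∧ kap T j z.i.1 y' z.y = v := by
        by_cases hk1 : kind x.i.1 j = 0
        · obtain ⟨y', hy'⟩ := (hrr j z.i.1 hj hk).2.2 v hv z.y
          refine ⟨y', ?_, hy'⟩
          have h4 : u = lb 0 := by
            simpa [blk, hk1] using hu
          rw [h4]
          simp [kap, hk1]
        · by_cases hk2 : kind j z.i.1 = 0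
          · obtain ⟨y', hy'⟩ := (hrr x.i.1 j hi hj).2.1 u hu x.y
            refine ⟨y', hy', ?_⟩
            have h4 : v = lb 0 := by
              simpa [blk, hk2] using hv
            rw [h4]
            simp [kap, hk2]
          · exact (hrk _ _ _ hi hj hk hk1 hk2 u hu v hv x.y z.y).2 h3
      obtain ⟨y', h5, h6⟩ := hex
      refine ⟨⟨⟨j, hj⟩, y'⟩, ?_, ?_⟩
      · refine ⟨_, ha, ?_⟩
        show ((x.i.1, j), u) = ((x.i.1, j), kap T x.i.1 j x.y y')
        rw [h5]
      · refine ⟨_, hb, ?_⟩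
        show ((j, z.i.1), v) = ((j, z.i.1), kap T j z.i.1 y' z.y)
        rw [h6]
    · rintro ⟨w, h1, h2⟩
      rw [hmem] at h1 h2
      refine ⟨_, h1, _, h2, ?_⟩
      unfold mul
      rw [hat', hat', hat']
      refine ⟨rfl, rfl, ?_⟩
      show rule x.i.1 w.i.1 z.i.1 (kap T x.i.1 w.i.1 x.y w.y) (kap T w.i.1 z.i.1 w.y z.y)
        (kap T x.i.1 z.i.1 x.y z.y)
      by_cases hk1 : kind x.i.1 w.i.1 = 0
      · unfold rule
        rw [hk1]
        simp
      · by_cases hk2 : kind w.i.1 z.i.1 = 0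
        · unfold rule
          rw [hk2]
          simp
        · exact (hrk _ _ _ x.i.2 w.i.2 z.i.2 hk1 hk2 _ ((hrr _ _ x.i.2 w.i.2).1 _ _) _
            ((hrr _ _ w.i.2 z.i.2).1 _ _) x.y z.y).1 ⟨w.y, rfl, rfl⟩
  · intro S S'
    funext x y
    apply propext
    rw [hmem]
    unfold impS
    constructor
    · intro h x' y' h1 h2 h3
      rw [le_eq h1, ← le_eq h2] at h3 ⊢
      rw [hmem] at h3 ⊢
      rcases h with h | h
      · exact absurd h3 h
      · exact h
    · intro h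
      by_cases h1 : at' x y ∈ S
      · right
        have := h x y le_rfl le_rfl ((hmem _ _ _).2 h1)
        rwa [hmem] at this
      · exact Or.inl h1

end Pool.Agent.Run7.h784.WR
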