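import Pool.Agent.Run7.h638.WR.Iface

/-! # Piece C5 of the project WR (MP_5885b3_lc): the code of the algebra -/

set_option autoImplicit false

universe u

namespace Pool.Agent.Run7.h784.WR

open Pool.Agent.Run7.h638.WR

theorem filter_mem_of_sublist {α : Type} (p : List α → α → Bool)
    (hp : ∀ s a, p s a = true ↔ a ∈ s) {s l : List α} (h : s.Sublist l) :
    l.Nodup → l.filter (p s) = s := by
  induction h with
  | slnil => intro _; rfl
  | @cons s l a h ih =>
    intro hl
    rw [List.nodup_cons] at hl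
    have h1 : ¬ p s a = true := by
      rw [hp]
      exact fun h2 => hl.1 (h.subset h2)
    rw [List.filter_cons_of_neg h1]
    exact ih hl.2
  | @cons_cons s l a h ih =>
    intro hl
    rw [List.nodup_cons] at hl
    have h1 : p (a :: s) a = true := by
      rw [hp]
      exact List.mem_cons_self
    rw [List.filter_cons_of_pos h1]
    congr 1
    rw [← ih hl.2]
    rw [ih hl.2]
    calc l.filter (p (a :: s)) = l.filter (p s) := by
          apply List.filter_congr
          intro x hx
          have h2 : x ≠ a := fun h3 => hl.1 (h3 ▸ hx)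
          have h3 : p (a :: s) x = true ↔ p s x = true := by
            rw [hp, hp, List.mem_cons]
            simp [h2]
          exact Bool.eq_iff_iff.2 h3
      _ = s := ih hl.2

/-- a representation moves along an injective homomorphism -/
theorem isRep_comp {A B : Type} {c i : A → A → A} {c' i' : B → B → B} (φ : A → B)
    (hφ : Function.Injective φ) (hc : ∀ a b, φ (c a b) = c' (φ a) (φ b))
    (hi : ∀ a b, φ (i a b) = i' (φ a) (φ b)) {X : Type u} [PartialOrder X]
    {h : B → X → X → Prop} (hh : IsRep c' i' h) : IsRep c i (fun a => h (φ a)) where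
  inj := fun a b hab => hφ (hh.inj hab)
  weak := fun a => hh.weak _
  comp := fun a b => by
    show h (φ (c a b)) = _
    rw [hc, hh.comp]
  imp := fun a b => by
    show h (φ (i a b)) = _
    rw [hi, hh.imp]

theorem rep_iff {A B : Type} {c i : A → A → A} {c' i' : B → B → B} (e : A ≃ B)
    (hc : ∀ a b, e (c a b) = c' (e a) (e b)) (hi : ∀ a b, e (i a b) = i' (e a) (e b)) :
    (Rep.{u} c i ↔ Rep.{u} c' i') ∧ (FinRep.{u} c i ↔ FinRep.{u} c' i') := by
  have hc' : ∀ a b, e.symm (c' a b) = c (e.symm a) (e.symm b) := by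
    intro a b
    rw [Equiv.symm_apply_eq, hc, e.apply_symm_apply, e.apply_symm_apply]
  have hi' : ∀ a b, e.symm (i' a b) = i (e.symm a) (e.symm b) := by
    intro a b
    rw [Equiv.symm_apply_eq, hi, e.apply_symm_apply, e.apply_symm_apply]
  constructor
  · constructor
    · rintro ⟨X, hX, h, hh⟩
      exact ⟨X, hX, _, isRep_comp e.symm e.symm.injective hc' hi' hh⟩
    · rintro ⟨X, hX, h, hh⟩
      exact ⟨X, hX, _, isRep_comp e e.injective hc hi hh⟩
  · constructor
    · rintro ⟨X, hX, h, hf, hh⟩
      exact ⟨X, hX, _, hf, isRep_comp e.symm e.symm.injective hc' hi' hh⟩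
    · rintro ⟨X, hX, h, hf, hh⟩
      exact ⟨X, hX, _, hf, isRep_comp e e.injective hc hi hh⟩

/-- the set of a number -/
def phi (Q : List Win) (i : ℕ) : Set (At Q) := {c | c.1 ∈ (subs Q).getD i []}

theorem subs_pos (Q : List Win) : 0 < (subs Q).length :=
  List.length_pos_of_mem (List.mem_sublists'.2 (List.nil_sublist _))

theorem getD_mem {α : Type} (l : List α) (d : α) {i : ℕ} (h : i < l.length) :
    l.getD i d ∈ l := by
  rw [List.getD_eq_getElem _ _ h]
  exact List.getElem_mem h

theorem getD_sub (Q : List Win) {i : ℕ} (h : i < (subs Q).length) :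
    ((subs Q).getD i []).Sublist (atoms Q) :=
  List.mem_sublists'.1 (getD_mem _ _ h)

theorem tbl_entry (Q : List Win) (f : List Atom → List Atom → List Atom)
    (hf : ∀ S T, (f S T).Sublist (atoms Q)) (n : ℕ) (hn : n + 1 = (subs Q).length)
    (i j : Fin (n + 1)) :
    (subs Q).getD (op n (tbl Q f) i j).1 [] = f ((subs Q).getD i []) ((subs Q).getD j []) := by
  have hi := i.2
  have hj := j.2
  have hN : 0 < (subs Q).length := subs_pos Q
  have hlt : i.1 * (n + 1) + j.1 < (subs Q).length * (subs Q).length := by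
    rw [← hn]
    calc i.1 * (n + 1) + j.1 < i.1 * (n + 1) + (n + 1) := by omega
      _ = (i.1 + 1) * (n + 1) := by ring
      _ ≤ (n + 1) * (n + 1) := Nat.mul_le_mul_right _ hi
  have hdiv : (i.1 * (n + 1) + j.1) / (subs Q).length = i.1 := by
    rw [← hn, Nat.add_comm, Nat.add_mul_div_right _ _ (by omega), Nat.div_eq_of_lt hj, Nat.zero_add]
  have hmod : (i.1 * (n + 1) + j.1) % (subs Q).length = j.1 := by
    rw [← hn, Nat.add_comm, Nat.add_mul_mod_self_right, Nat.mod_eq_of_lt hj]
  have hent : (tbl Q f).getD (i.1 * (n + 1) + j.1) 0 =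
      (subs Q).findIdx (fun s => decide (s = f ((subs Q).getD i.1 []) ((subs Q).getD j.1 []))) := by
    have hl : i.1 * (n + 1) + j.1 < (tbl Q f).length := by
      unfold tbl
      rw [List.length_map, List.length_range]
      exact hlt
    rw [List.getD_eq_getElem _ _ hl]
    unfold tbl
    rw [List.getElem_map, List.getElem_range, hdiv, hmod]
  have hex : ∃ x ∈ subs Q, (fun s => decide (s = f ((subs Q).getD i.1 [])
      ((subs Q).getD j.1 []))) x = true :=
    ⟨f ((subs Q).getD i.1 []) ((subs Q).getD j.1 []), List.mem_sublists'.2 (hf _ _),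
      decide_eq_true rfl⟩
  have hlt2 := List.findIdx_lt_length_of_exists hex
  have hval : (op n (tbl Q f) i j).1 =
      (subs Q).findIdx (fun s => decide (s = f ((subs Q).getD i.1 []) ((subs Q).getD j.1 []))) := by
    unfold op
    rw [hent]
    exact Nat.mod_eq_of_lt (lt_of_lt_of_eq hlt2 hn.symm)
  rw [hval, List.getD_eq_getElem _ _ hlt2]
  have := List.findIdx_getElem (w := hlt2)
  exact of_decide_eq_true this

theorem t_C5 : C5.{u} := by
  rintro ⟨hC, -⟩ Q
  obtain ⟨hnd, hat⟩ := hC Q
  have hN := subs_pos Q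
  obtain ⟨n, hn⟩ : ∃ n, n + 1 = (subs Q).length := ⟨(subs Q).length - 1, by omega⟩
  have hn' : (subs Q).length - 1 = n := by omega
  classical
  -- the bijection
  have hinj : Function.Injective (fun i : Fin (n + 1) => phi Q i.1) := by
    intro i j hij
    have hi : i.1 < (subs Q).length := by omega
    have hj : j.1 < (subs Q).length := by omega
    have h1 : (subs Q).getD i.1 [] = (subs Q).getD j.1 [] := by
      rw [← filter_mem_of_sublist (fun s a => decide (a ∈ s)) (by simp) (getD_sub Q hi) hnd,
        ← filter_mem_of_sublist (fun s a => decide (a ∈ s)) (by simp) (getD_sub Q hj) hnd]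
      apply List.filter_congr
      intro x hx
      have h2 : (⟨x, (hat x).1 hx⟩ : At Q) ∈ phi Q i.1 ↔ (⟨x, (hat x).1 hx⟩ : At Q) ∈ phi Q j.1 := by
        rw [show phi Q i.1 = phi Q j.1 from hij]
      exact decide_eq_decide.2 h2
    have h3 : (subs Q).Nodup := List.nodup_sublists'.2 hnd
    rw [List.getD_eq_getElem _ _ hi, List.getD_eq_getElem _ _ hj] at h1
    exact Fin.ext ((List.Nodup.getElem_inj_iff h3).1 h1)
  have hsur : Function.Surjective (fun i : Fin (n + 1) => phi Q i.1) := by
    intro S
    have h1 : (atoms Q).filter (fun a => decide (∃ c ∈ S, c.1 = a)) ∈ subs Q :=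
      List.mem_sublists'.2 List.filter_sublist
    obtain ⟨i, hi, h2⟩ := List.getElem_of_mem h1
    refine ⟨⟨i, by omega⟩, ?_⟩
    ext c
    show c.1 ∈ (subs Q).getD i [] ↔ _
    rw [List.getD_eq_getElem _ _ hi, h2, List.mem_filter, decide_eq_true_iff]
    constructor
    · rintro ⟨-, c', hc', h⟩
      rwa [← Subtype.ext h]
    · intro h
      exact ⟨(hat _).2 c.2, c, h, rfl⟩
  let e : Fin (n + 1) ≃ Set (At Q) := Equiv.ofBijective _ ⟨hinj, hsur⟩
  have he : ∀ i, e i = phi Q i.1 := fun i => rfl
  have hcmp : ∀ a b, e (op n (tbl Q (cmpL Q)) a b) = cmpS Q (e a) (e b) := by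
    intro a b
    have ha : a.1 < (subs Q).length := by omega
    have hb : b.1 < (subs Q).length := by omega
    rw [he, he, he]
    ext c
    show c.1 ∈ (subs Q).getD (op n (tbl Q (cmpL Q)) a b).1 [] ↔ _
    rw [tbl_entry Q (cmpL Q) (fun S T => List.filter_sublist) n hn a b]
    unfold cmpL
    rw [List.mem_filter, decide_eq_true_iff]
    constructor
    · rintro ⟨-, x, hx, y, hy, h⟩
      exact ⟨⟨x, (hat x).1 ((getD_sub Q ha).subset hx)⟩, hx,
        ⟨y, (hat y).1 ((getD_sub Q hb).subset hy)⟩, hy, h⟩
    · rintro ⟨x, hx, y, hy, h⟩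
      exact ⟨(hat _).2 c.2, x.1, hx, y.1, hy, h⟩
  have himp : ∀ a b, e (op n (tbl Q (impL Q)) a b) = impS Q (e a) (e b) := by
    intro a b
    rw [he, he, he]
    ext c
    show c.1 ∈ (subs Q).getD (op n (tbl Q (impL Q)) a b).1 [] ↔ _
    rw [tbl_entry Q (impL Q) (fun S T => List.filter_sublist) n hn a b]
    unfold impL impS
    rw [List.mem_filter, decide_eq_true_iff, Set.mem_union, Set.mem_compl_iff]
    constructor
    · rintro ⟨-, h⟩
      by_cases h1 : c ∈ phi Q a.1
      · exact Or.inr (h h1)
      · exact Or.inl h1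
    · rintro (h | h)
      · exact ⟨(hat _).2 c.2, fun h1 => absurd h1 h⟩
      · exact ⟨(hat _).2 c.2, fun _ => h⟩
  have key := rep_iff.{u} e hcmp himp
  unfold RepCode FinRepCode code
  simp only
  rw [hn']
  exact key

end Pool.Agent.Run7.h784.WR
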