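import Pool.Agent.Run7.h638.WR.Iface

/-! # Piece RR of the project WR (MP_5885b3_lc): membership and richness -/

set_option autoImplicit false

namespace Pool.Agent.Run7.h784.WR

open Pool.Agent.Run7.h638.WR

theorem ea_ne {n m : ℕ} (y : Yt n m) : y + ea n m ≠ y := by
  intro h
  have h1 := congrArg (fun z : Yt n m => z.2.2) h
  simp only [ea, Prod.snd_add] at h1
  revert h1
  generalize y.2.2 = a
  revert a
  decide

theorem eb_ne {n m : ℕ} (y : Yt n m) : y + eb n m ≠ y := by
  intro h
  have h1 := congrArg (fun z : Yt n m => z.2.2) h
  simp only [eb, Prod.snd_add] at h1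
  revert h1
  generalize y.2.2 = a
  revert a
  decide

/-- the third shift -/
def ec (n m : ℕ) (a : ZMod 5) : Yt n m := (0, 0, a)

theorem third {n m : ℕ} {y z : Yt n m} (h : y.2.2 ≠ z.2.2) : y ≠ z := fun h1 => h (by rw [h1])

theorem lb_inj {a b : ℕ} : lb a = lb b ↔ a = b := by
  constructor
  · intro h
    exact congrArg (fun w : Win => w.1.1.1) h
  · intro h
    rw [h]

theorem t_RR : RR := by
  intro n m hn hm T Q hQ i j hi hj
  have hT : ∀ (a : ZMod n) (b : ZMod m), winT T a b ∈ Q := fun a b => (hQ _).2 ⟨a, b, rfl⟩
  rcases (show kind i j = 0 ∨ kind i j = 1 ∨ kind i j = 2 ∨ kind i j = 3 by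
    unfold kind
    split_ifs <;> simp) with hk | hk | hk | hk
  · refine ⟨?_, ?_, ?_⟩
    · intro y y'
      simp [kap, blk, hk]
    · intro u hu y
      refine ⟨y, ?_⟩
      simp only [blk, hk] at hu
      simp [kap, hk] at hu ⊢
      exact hu.symm
    · intro u hu y
      refine ⟨y, ?_⟩
      simp only [blk, hk] at hu
      simp [kap, hk] at hu ⊢
      exact hu.symm
  · refine ⟨?_, ?_, ?_⟩
    · intro y y'
      unfold kap blk
      rw [if_pos hk, if_pos hk]
      split_ifs <;> simp
    · intro u hu y
      unfold blk at hu
      rw [if_pos hk] at hu
      unfold kap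
      simp only [if_pos hk]
      by_cases hi0 : i = 0
      · simp only [if_pos hi0]
        simp only [List.mem_cons, List.not_mem_nil, or_false] at hu
        rcases hu with rfl | rfl | rfl
        · exact ⟨y, by simp⟩
        · refine ⟨y + ea n m, ?_⟩
          rw [if_neg (ea_ne y), if_pos rfl]
        · refine ⟨y + ec n m 2, ?_⟩
          rw [if_neg, if_neg]
          · intro h
            have h1 := congrArg (fun z : Yt n m => z.2.2) h
            simp only [ea, ec, Prod.snd_add, add_right_inj] at h1
            exact absurd h1 (by decide)
          · intro h
            have h1 := congrArg (fun z : Yt n m => z.2.2) h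
            simp only [ec, Prod.snd_add, add_eq_left] at h1
            exact absurd h1 (by decide)
      · simp only [if_neg hi0]
        simp only [List.mem_cons, List.not_mem_nil, or_false] at hu
        rcases hu with rfl | rfl | rfl
        · exact ⟨y, by simp⟩
        · refine ⟨y - eb n m, ?_⟩
          rw [if_neg, if_pos (by rw [sub_add_cancel])]
          intro h
          apply eb_ne (y - eb n m)
          rw [sub_add_cancel, h]
        · refine ⟨y + ec n m 2, ?_⟩
          rw [if_neg, if_neg]
          · intro h
            have h1 := congrArg (fun z : Yt n m => z.2.2) h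
            simp only [eb, ec, Prod.snd_add] at h1
            revert h1
            generalize y.2.2 = a
            revert a
            decide
          · intro h
            have h1 := congrArg (fun z : Yt n m => z.2.2) h
            simp only [ec, Prod.snd_add, add_eq_left] at h1
            exact absurd h1 (by decide)
    · intro u hu y'
      unfold blk at hu
      rw [if_pos hk] at hu
      unfold kap
      simp only [if_pos hk]
      by_cases hi0 : i = 0
      · simp only [if_pos hi0]
        simp only [List.mem_cons, List.not_mem_nil, or_false] at hu
        rcases hu with rfl | rfl | rfl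
        · exact ⟨y', by simp⟩
        · refine ⟨y' - ea n m, ?_⟩
          rw [if_neg, if_pos (by rw [sub_add_cancel])]
          intro h
          apply ea_ne (y' - ea n m)
          rw [sub_add_cancel, ← h]
        · refine ⟨y' + ec n m 2, ?_⟩
          rw [if_neg, if_neg]
          · intro h
            have h1 := congrArg (fun z : Yt n m => z.2.2) h
            simp only [ea, ec, Prod.snd_add] at h1
            revert h1
            generalize y'.2.2 = a
            revert a
            decide
          · intro h
            have h1 := congrArg (fun z : Yt n m => z.2.2) h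
            simp only [ec, Prod.snd_add] at h1
            revert h1
            generalize y'.2.2 = a
            revert a
            decide
      · simp only [if_neg hi0]
        simp only [List.mem_cons, List.not_mem_nil, or_false] at hu
        rcases hu with rfl | rfl | rfl
        · exact ⟨y', by simp⟩
        · refine ⟨y' + eb n m, ?_⟩
          rw [if_neg (fun h => eb_ne y' h.symm), if_pos rfl]
        · refine ⟨y' + ec n m 2, ?_⟩
          rw [if_neg, if_neg]
          · intro h
            have h1 := congrArg (fun z : Yt n m => z.2.2) h
            simp only [eb, ec, Prod.snd_add, add_right_inj] at h1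
            exact absurd h1 (by decide)
          · intro h
            have h1 := congrArg (fun z : Yt n m => z.2.2) h
            simp only [ec, Prod.snd_add] at h1
            revert h1
            generalize y'.2.2 = a
            revert a
            decide
  · refine ⟨?_, ?_, ?_⟩
    · intro y y'
      unfold kap blk
      rw [hk]
      simp only [OfNat.ofNat_ne_one, if_false, if_true]
      split_ifs <;> simp
    · intro u hu y
      unfold blk at hu
      rw [hk] at hu
      unfold kap
      rw [hk]
      simp only [OfNat.ofNat_ne_one, if_false, if_true, List.mem_cons, List.not_mem_nil,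
        or_false] at hu ⊢
      rcases hu with rfl | rfl
      · exact ⟨y, by simp⟩
      · refine ⟨y + ec n m 2, ?_⟩
        rw [if_neg]
        intro h
        have h1 := congrArg (fun z : Yt n m => z.2.2) h
        simp only [ec, Prod.snd_add, add_eq_left] at h1
        exact absurd h1 (by decide)
    · intro u hu y'
      unfold blk at hu
      rw [hk] at hu
      unfold kap
      rw [hk]
      simp only [OfNat.ofNat_ne_one, if_false, if_true, List.mem_cons, List.not_mem_nil,
        or_false] at hu ⊢
      rcases hu with rfl | rfl
      · exact ⟨y', by simp⟩
      · refine ⟨y' + ec n m 2, ?_⟩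
        rw [if_neg]
        intro h
        have h1 := congrArg (fun z : Yt n m => z.2.2) h
        simp only [ec, Prod.snd_add] at h1
        revert h1
        generalize y'.2.2 = a
        revert a
        decide
  · refine ⟨?_, ?_, ?_⟩
    · intro y y'
      unfold kap blk
      rw [hk]
      simp only [Nat.reduceEqDiff, if_false, if_true, OfNat.ofNat_ne_one, List.mem_map]
      exact ⟨_, hT _ _, rfl⟩
    · intro u hu y
      unfold blk at hu
      rw [hk] at hu
      unfold kap
      rw [hk]
      simp only [Nat.reduceEqDiff, if_false, if_true, OfNat.ofNat_ne_one, List.mem_map] at hu ⊢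
      obtain ⟨w, hw, rfl⟩ := hu
      obtain ⟨a, b, rfl⟩ := (hQ w).1 hw
      refine ⟨(a - y.1, b - y.2.1, 0), ?_⟩
      simp only [add_sub_cancel]
    · intro u hu y'
      unfold blk at hu
      rw [hk] at hu
      unfold kap
      rw [hk]
      simp only [Nat.reduceEqDiff, if_false, if_true, OfNat.ofNat_ne_one, List.mem_map] at hu ⊢
      obtain ⟨w, hw, rfl⟩ := hu
      obtain ⟨a, b, rfl⟩ := (hQ w).1 hw
      refine ⟨(a - y'.1, b - y'.2.1, 0), ?_⟩
      simp only [sub_add_cancel]

end Pool.Agent.Run7.h784.WR
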